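import Pool.Agent.H757_X15.ES.FinE
import Pool.Agent.H757_X15.DN.Fin

/-!
# Goldfeld's conjecture: a positive proportion of the quadratic twists of the curves with the `j`-invariant
# of `X_0(15)` has analytic rank zero

`E : y² = x³ - 12987 m² x - 263466 m³` is the quadratic twist of the modular curve `X_0(15)` by the
squarefree integer `m`, so `E` has no complex multiplication and no rational isogeny of degree three.
`N_0(E, X)` is the number of the squarefree integers `d ≠ 0` (of both signs) with `|d| < X` such that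
`E^d : y² = x³ - 12987 m² d² x - 263466 m³ d³` has analytic rank `0`, `S(X)` is the number of all the
squarefree `d ≠ 0` with `|d| < X`.  We prove, for all `m`,

`liminf N_0(E, X) / S(X) ≥ 5 c / (192 |m|)`,  `c = ∏_{i ≥ 1} (1 - 2^{-i}) = 0.2887…`.

The proof uses the exact criterion for the central value modulo two and the exact proportion in
`Pool.Agent.H757_X15`, which are joint work of many helpers.
-/

set_option autoImplicit false

open WeierstrassCurve Filter Topology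

namespace Pool.Agent.Results.MP_03e5d0_nt.RankZeroTwistsX15

open scoped Classical

/-- The curve given by the equation of `W` over the ring `R`. -/
abbrev base (W : WeierstrassCurve ℤ) (R : Type) [CommRing R] : WeierstrassCurve R :=
  W.map (Int.castRingHom R)

/-- `W` is a global minimal equation. -/
def Minimal (W : WeierstrassCurve ℤ) : Prop :=
  W.Δ ≠ 0 ∧ ∀ (W' : WeierstrassCurve ℤ) (C : VariableChange ℚ), C • base W ℚ = base W' ℚ →
    |W.Δ| ≤ |W'.Δ|

/-- `a_p = p + 1 - #W(𝔽_p)`, the points counted with the point at infinity. -/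
noncomputable def a (W : WeierstrassCurve ℤ) (p : ℕ) : ℤ :=
  p - Nat.card {P : ZMod p × ZMod p // (base W (ZMod p)).toAffine.Equation P.1 P.2}

/-- The Euler product of the minimal equation `W`. -/
def Euler (W : WeierstrassCurve ℤ) (s z : ℂ) : Prop :=
  HasProd (fun p : Nat.Primes => (1 - (a W p : ℂ) * ((p : ℕ) : ℂ) ^ (-s) +
      (if ((p : ℕ) : ℤ) ∣ W.Δ then 0 else ((p : ℕ) : ℂ) ^ (1 - 2 * s)))⁻¹) z

/-- `f` is the Hasse-Weil L-function of the elliptic curve `C` over `ℚ`: it is entire, and for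
`Re s > 3/2` it is the Euler product of a global minimal equation of `C`. -/
def IsL (C : WeierstrassCurve ℚ) (f : ℂ → ℂ) : Prop :=
  Differentiable ℂ f ∧ ∃ W : WeierstrassCurve ℤ, Minimal W ∧
    (∃ u : VariableChange ℚ, u • C = base W ℚ) ∧ ∀ s : ℂ, 3 / 2 < s.re → Euler W s (f s)

/-- The analytic rank of the curve `C` is `r`. -/
def AnalyticRank (C : WeierstrassCurve ℚ) (r : ℕ) : Prop :=
  ∃ f : ℂ → ℂ, IsL C f ∧ analyticOrderAt f 1 = r

/-- The curve `y² = x³ + A x + B`. -/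
def curve (A B : ℚ) : WeierstrassCurve ℚ := ⟨0, 0, 0, A, B⟩

/-- `S(X)`, the number of the squarefree integers `d ≠ 0` with `|d| < X`. -/
noncomputable def S (X : ℝ) : ℕ := Nat.card {d : ℤ // d ≠ 0 ∧ Squarefree d ∧ (|d| : ℝ) < X}

/-- `N_r(E, X)` for `E : y² = x³ + A x + B`, the number of the squarefree integers `d ≠ 0` with `|d| < X`
such that `E^d : y² = x³ + A d² x + B d³` has analytic rank `r`. -/
noncomputable def N (r : ℕ) (A B : ℚ) (X : ℝ) : ℕ :=
  Nat.card {d : ℤ // d ≠ 0 ∧ Squarefree d ∧ (|d| : ℝ) < X ∧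
    AnalyticRank (curve (A * d ^ 2) (B * d ^ 3)) r}

/-- `c = ∏_{i ≥ 1} (1 - 2^{-i})` -/
noncomputable def cc : ℝ := ∏' i : ℕ, (1 - (1 / 2 : ℝ) ^ (i + 1))

section proof

lemma Nat.card_eq_card_toFinset_aux (S : Finset ℕ) : Nat.card {D : ℕ // D ∈ S} = S.card := by
  rw [Nat.card_eq_fintype_card, Fintype.card_coe]

open Pool.Agent.H757_X15 (WD)
open Pool.Agent.H757_X15.DD (Fm Crit)

/-- the central value does not vanish -/
lemma central {D : ℕ} (hs : Squarefree D) (hm : Fm D) (h1 : D ≠ 1) (hc : Crit D) :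
    ∃ f : ℂ → ℂ, Pool.Agent.H757_X15.IsL (WD D) f ∧ f 1 ≠ 0 := by
  obtain ⟨-, -, -, -, ⟨f, w, y, f5, hw, hy, f6⟩, -, -⟩ :=
    Pool.Agent.H757_X15.EE.t_FULL D hs hm h1
  refine ⟨f, f5, fun h0 => ?_⟩
  rw [h0, zero_mul, zero_div] at f6
  have hyo := hy.2 hc
  have h2 : w * y ^ 2 = 0 := by exact_mod_cast f6.symm
  rcases mul_eq_zero.1 h2 with h | h
  · rw [h] at hw
    exact absurd hw (by decide)
  · rw [pow_eq_zero_iff two_ne_zero] at h
    rw [h] at hyo
    exact absurd hyo (by decide)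

/-- the twist by `q² D` of the short model is isomorphic to the minimal model of the twist by `D` -/
lemma exists_vc {D : ℤ} (h4 : D % 4 = 1) (q : ℚ) (hq : q ≠ 0) :
    ∃ u : VariableChange ℚ, u • curve (-12987 * (D * q ^ 2) ^ 2) (-263466 * (D * q ^ 2) ^ 3) =
      base (WD D) ℚ := by
  obtain ⟨k, hk⟩ : ∃ k, D = 4 * k + 1 := ⟨D / 4, by omega⟩
  have b2 : (5 * D - 1) / 4 = 5 * k + 1 := by omega
  have b4 : (19 * D ^ 2 + 1) / 2 = 152 * k ^ 2 + 76 * k + 10 := by
    rw [hk]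
    have : 19 * (4 * k + 1) ^ 2 + 1 = 2 * (152 * k ^ 2 + 76 * k + 10) := by ring
    rw [this, Int.mul_ediv_cancel_left _ (by norm_num)]
  have b6 : (39 * D ^ 3 + 1) / 4 = 624 * k ^ 3 + 468 * k ^ 2 + 117 * k + 10 := by
    rw [hk]
    have : 39 * (4 * k + 1) ^ 3 + 1 = 4 * (624 * k ^ 3 + 468 * k ^ 2 + 117 * k + 10) := by ring
    rw [this, Int.mul_ediv_cancel_left _ (by norm_num)]
  have eD : (D : ℚ) = 4 * k + 1 := by rw [hk]; push_cast; ring
  have e1 : (base (WD D) ℚ).a₁ = 1 := by show ((1 : ℤ) : ℚ) = 1; norm_num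
  have e2 : (base (WD D) ℚ).a₂ = 5 * k + 1 := by
    show (((5 * D - 1) / 4 : ℤ) : ℚ) = _
    rw [b2]; push_cast; ring
  have e3 : (base (WD D) ℚ).a₃ = 1 := by show ((1 : ℤ) : ℚ) = 1; norm_num
  have e4 : (base (WD D) ℚ).a₄ = -(152 * k ^ 2 + 76 * k + 10) := by
    show ((-((19 * D ^ 2 + 1) / 2) : ℤ) : ℚ) = _
    rw [b4]; push_cast; ring
  have e6 : (base (WD D) ℚ).a₆ = -(624 * k ^ 3 + 468 * k ^ 2 + 117 * k + 10) := by
    show ((-((39 * D ^ 3 + 1) / 4) : ℤ) : ℚ) = _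
    rw [b6]; push_cast; ring
  have hu : (6 * q : ℚ) ≠ 0 := mul_ne_zero (by norm_num) hq
  refine ⟨⟨Units.mk0 (6 * q) hu, 15 * D * q ^ 2, 3 * q, 108 * q ^ 3⟩, ?_⟩
  ext
  · rw [variableChange_a₁, e1]
    simp only [curve, Units.val_inv_eq_inv_val, Units.val_mk0]
    field_simp
    ring
  · rw [variableChange_a₂, e2]
    simp only [curve, Units.val_inv_eq_inv_val, Units.val_mk0]
    rw [eD]
    field_simp
    ring
  · rw [variableChange_a₃, e3]
    simp only [curve, Units.val_inv_eq_inv_val, Units.val_mk0]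
    field_simp
    ring
  · rw [variableChange_a₄, e4]
    simp only [curve, Units.val_inv_eq_inv_val, Units.val_mk0]
    rw [eD]
    field_simp
    ring
  · rw [variableChange_a₆, e6]
    simp only [curve, Units.val_inv_eq_inv_val, Units.val_mk0]
    rw [eD]
    field_simp
    ring

/-- analytic rank zero of the twists -/
lemma rank0 {D : ℕ} (hs : Squarefree D) (hm : Fm D) (h1 : D ≠ 1) (hc : Crit D) (m d : ℤ) (q : ℤ)
    (hq : q ≠ 0) (h : m * d = D * q ^ 2) :
    AnalyticRank (curve (-12987 * m ^ 2 * d ^ 2) (-263466 * m ^ 3 * d ^ 3)) 0 := by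
  obtain ⟨f, hf, hf1⟩ := central hs hm h1 hc
  have h4 : (D : ℤ) % 4 = 1 := by rcases hm with h | h <;> omega
  have h3 : ¬ (3 : ℤ) ∣ D := by rcases hm with h | h <;> omega
  have h5 : ¬ (5 : ℤ) ∣ D := by rcases hm with h | h <;> omega
  obtain ⟨hmin, -, -⟩ := Pool.Agent.H757_X15.t_MOD D h4 (Int.squarefree_natCast.2 hs) h3 h5
  have hq' : (q : ℚ) ≠ 0 := by exact_mod_cast hq
  obtain ⟨u, hu⟩ := exists_vc h4 (q : ℚ) hq'
  refine ⟨f, ⟨hf.1, WD D, hmin, ⟨u, ?_⟩, fun s hs => hf.2 s hs⟩, ?_⟩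
  · rw [← hu]
    have h2 : (m : ℚ) * d = D * q ^ 2 := by exact_mod_cast h
    congr 1
    unfold curve
    congr 1
    · rw [show (-12987 : ℚ) * m ^ 2 * d ^ 2 = -12987 * (m * d) ^ 2 by ring, h2]
      push_cast
      ring
    · rw [show (-263466 : ℚ) * m ^ 3 * d ^ 3 = -263466 * (m * d) ^ 3 by ring, h2]
      push_cast
      ring
  · exact (hf.1.analyticAt 1).analyticOrderAt_eq_zero.2 hf1

/-- squarefree numbers whose quotient is a square are equal -/
lemma sf_eq {D E a b : ℕ} (hD : Squarefree D) (hE : Squarefree E) (ha : a ≠ 0) (hb : b ≠ 0)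
    (h : D * a ^ 2 = E * b ^ 2) : D = E := by
  refine Nat.eq_of_factorization_eq hD.ne_zero hE.ne_zero fun p => ?_
  have h1 : (D * a ^ 2).factorization p = (E * b ^ 2).factorization p := by rw [h]
  rw [Nat.factorization_mul hD.ne_zero (pow_ne_zero 2 ha),
    Nat.factorization_mul hE.ne_zero (pow_ne_zero 2 hb), Nat.factorization_pow,
    Nat.factorization_pow] at h1
  simp only [Finsupp.coe_add, Finsupp.coe_smul, Pi.add_apply, Pi.smul_apply, smul_eq_mul] at h1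
  have h2 := hD.natFactorization_le_one p
  have h3 := hE.natFactorization_le_one p
  omega

/-- the twisting factor -/
def dd (m : ℤ) (D : ℕ) : ℤ := (m / (Nat.gcd m.natAbs D : ℕ)) * ((D / Nat.gcd m.natAbs D : ℕ) : ℤ)

lemma dd_facts {m : ℤ} (hm : Squarefree m) {D : ℕ} (hD : Squarefree D) :
    dd m D ≠ 0 ∧ Squarefree (dd m D) ∧ |dd m D| ≤ |m| * D ∧
      ∃ q : ℤ, q ≠ 0 ∧ m * dd m D = D * q ^ 2 := by
  obtain ⟨g, hg⟩ : ∃ g, g = Nat.gcd m.natAbs D := ⟨_, rfl⟩
  have hm0 : m ≠ 0 := hm.ne_zero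
  have hD0 : D ≠ 0 := hD.ne_zero
  have hg0 : g ≠ 0 := by
    rw [hg]
    exact Nat.gcd_ne_zero_left (Int.natAbs_ne_zero.2 hm0)
  obtain ⟨m', hm'⟩ : (g : ℤ) ∣ m := by
    rw [hg]
    exact Int.natCast_dvd.2 (Nat.gcd_dvd_left _ _)
  obtain ⟨D', hD'⟩ : g ∣ D := by
    rw [hg]
    exact Nat.gcd_dvd_right _ _
  have hgz : (g : ℤ) ≠ 0 := by exact_mod_cast hg0
  have e1 : m / (g : ℤ) = m' := by rw [hm', Int.mul_ediv_cancel_left _ hgz]
  have e2 : D / g = D' := by rw [hD', Nat.mul_div_cancel_left _ (Nat.pos_of_ne_zero hg0)]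
  have ed : dd m D = m' * D' := by
    unfold dd
    rw [← hg, e1, e2]
  have hm'0 : m' ≠ 0 := by
    rintro rfl
    exact hm0 (by rw [hm', mul_zero])
  have hD'0 : D' ≠ 0 := by
    rintro rfl
    exact hD0 (by rw [hD', mul_zero])
  have hcop : Nat.Coprime m'.natAbs D' := by
    have h1 : m.natAbs = g * m'.natAbs := by rw [hm', Int.natAbs_mul, Int.natAbs_natCast]
    have h2 : Nat.gcd (g * m'.natAbs) (g * D') = g := by rw [← h1, ← hD', ← hg]
    rw [Nat.gcd_mul_left] at h2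
    exact Nat.eq_of_mul_eq_mul_left (Nat.pos_of_ne_zero hg0) (by rw [h2, mul_one])
  refine ⟨?_, ?_, ?_, m', hm'0, ?_⟩
  · rw [ed]
    exact mul_ne_zero hm'0 (by exact_mod_cast hD'0)
  · rw [ed, ← Int.squarefree_natAbs, Int.natAbs_mul, Int.natAbs_natCast, Nat.squarefree_mul hcop]
    refine ⟨?_, ?_⟩
    · refine Int.squarefree_natAbs.2 (hm.squarefree_of_dvd ⟨g, ?_⟩)
      rw [hm', mul_comm]
    · exact hD.squarefree_of_dvd ⟨g, by rw [hD', mul_comm]⟩
  · rw [ed, abs_mul, Nat.abs_cast]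
    have h1 : |m'| ≤ |m| := by
      rw [hm', abs_mul, Nat.abs_cast]
      have h2 : (1 : ℤ) ≤ g := by exact_mod_cast Nat.one_le_iff_ne_zero.2 hg0
      nlinarith [abs_nonneg m']
    have h2 : (D' : ℤ) ≤ D := by
      exact_mod_cast Nat.le_of_dvd (Nat.pos_of_ne_zero hD0) ⟨g, by rw [hD', mul_comm]⟩
    exact mul_le_mul h1 h2 (by positivity) (abs_nonneg m)
  · rw [ed]
    have h1 : (D : ℤ) = g * D' := by exact_mod_cast hD'
    rw [h1, hm']
    ring

lemma dd_inj {m : ℤ} (hm : Squarefree m) {D E : ℕ} (hD : Squarefree D) (hE : Squarefree E)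
    (h : dd m D = dd m E) : D = E := by
  obtain ⟨-, -, -, q, hq, h1⟩ := dd_facts hm hD
  obtain ⟨-, -, -, r, hr, h2⟩ := dd_facts hm hE
  rw [h, h2] at h1
  refine sf_eq hD hE (a := q.natAbs) (b := r.natAbs) (Int.natAbs_ne_zero.2 hq)
    (Int.natAbs_ne_zero.2 hr) ?_
  have h3 := congrArg Int.natAbs h1
  rw [Int.natAbs_mul, Int.natAbs_mul, Int.natAbs_pow, Int.natAbs_pow, Int.natAbs_natCast,
    Int.natAbs_natCast] at h3
  exact h3.symm

lemma fin_set (X : ℝ) (P : ℤ → Prop) : Finite {d : ℤ // d ≠ 0 ∧ Squarefree d ∧ (|d| : ℝ) < X ∧ P d} := by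
  refine Set.Finite.to_subtype ((Set.finite_Icc (-⌈|X|⌉) ⌈|X|⌉).subset ?_)
  rintro d ⟨-, -, h, -⟩
  rw [Set.mem_Icc, ← abs_le]
  have h1 : ((|d| : ℤ) : ℝ) ≤ (⌈|X|⌉ : ℤ) := by
    push_cast
    exact h.le.trans ((le_abs_self X).trans (Int.le_ceil _))
  exact_mod_cast h1

/-- the lower bound for `N_0` -/
lemma low {m : ℤ} (hm : Squarefree m) {X : ℝ} (hX : 1 < X) :
    ((Finset.Icc 1 ((⌈X⌉₊ - 1) / m.natAbs)).filter fun D => Squarefree D ∧ Fm D ∧ Crit D).card ≤
      N 0 (-12987 * m ^ 2) (-263466 * m ^ 3) X + 1 := by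
  set n := ⌈X⌉₊ - 1 with hn
  have hc0 : 1 < ⌈X⌉₊ := by
    have : (1 : ℝ) < (⌈X⌉₊ : ℝ) := lt_of_lt_of_le hX (Nat.le_ceil X)
    exact_mod_cast this
  have hnX : (n : ℝ) < X := by
    have h1 : n < ⌈X⌉₊ := by omega
    exact Nat.lt_ceil.1 h1
  set F := (Finset.Icc 1 (n / m.natAbs)).filter fun D => Squarefree D ∧ Fm D ∧ Crit D with hF
  have hmem : ∀ D ∈ F.erase 1, D ≠ 1 ∧ (1 ≤ D ∧ D ≤ n / m.natAbs) ∧ Squarefree D ∧ Fm D ∧ Crit D := by
    intro D hD
    rwa [Finset.mem_erase, hF, Finset.mem_filter, Finset.mem_Icc] at hD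
  have h1 : F.card ≤ (F.erase 1).card + 1 := by
    have := Finset.pred_card_le_card_erase (s := F) (a := 1)
    omega
  refine h1.trans (Nat.add_le_add_right ?_ 1)
  have hfin := fin_set X fun d => AnalyticRank (curve (-12987 * (m : ℚ) ^ 2 * d ^ 2)
    (-263466 * (m : ℚ) ^ 3 * d ^ 3)) 0
  rw [← Nat.card_eq_card_toFinset_aux (F.erase 1)]
  unfold N
  refine Nat.card_le_card_of_injective (fun D : {D : ℕ // D ∈ F.erase 1} =>
    (⟨dd m D.1, ?_⟩ : {d : ℤ // d ≠ 0 ∧ Squarefree d ∧ (|d| : ℝ) < X ∧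
      AnalyticRank (curve (-12987 * (m : ℚ) ^ 2 * d ^ 2) (-263466 * (m : ℚ) ^ 3 * d ^ 3)) 0})) ?_
  · obtain ⟨hne, ⟨hD1, hD2⟩, hsq, hfm, hcr⟩ := hmem D.1 D.2
    obtain ⟨a1, a2, a3, q, hq, a4⟩ := dd_facts hm hsq
    refine ⟨a1, a2, ?_, rank0 hsq hfm hne hcr m _ q hq a4⟩
    have hm0 : 0 < m.natAbs := Int.natAbs_pos.2 hm.ne_zero
    have h2 : m.natAbs * D.1 ≤ n := by
      rw [mul_comm]
      exact (Nat.le_div_iff_mul_le hm0).1 hD2
    have h3 : |dd m D.1| ≤ (n : ℤ) := by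
      refine a3.trans ?_
      rw [Int.abs_eq_natAbs]
      exact_mod_cast h2
    have h4 : ((|dd m D.1| : ℤ) : ℝ) ≤ (n : ℝ) := by exact_mod_cast h3
    rw [Int.cast_abs] at h4
    exact lt_of_le_of_lt h4 hnX
  · intro D E h
    have h2 : dd m D.1 = dd m E.1 := congrArg Subtype.val h
    exact Subtype.ext (dd_inj hm (hmem D.1 D.2).2.2.1 (hmem E.1 E.2).2.2.1 h2)

/-- the upper bound for `S` -/
lemma up {X : ℝ} (hX : 1 < X) : 0 < S X ∧
    S X ≤ 2 * ((Finset.Icc 1 (⌈X⌉₊ - 1)).filter fun D => Squarefree D).card := by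
  set n := ⌈X⌉₊ - 1 with hn
  have hfin := fin_set X fun _ => True
  have hfin' : Finite {d : ℤ // d ≠ 0 ∧ Squarefree d ∧ (|d| : ℝ) < X} := by
    simpa using hfin
  constructor
  · unfold S
    have : Nonempty {d : ℤ // d ≠ 0 ∧ Squarefree d ∧ (|d| : ℝ) < X} :=
      ⟨⟨1, one_ne_zero, squarefree_one, by simpa using hX⟩⟩
    exact Nat.card_pos
  · unfold S
    have e : 2 * ((Finset.Icc 1 n).filter fun D => Squarefree D).card =
        Nat.card (Bool × {D : ℕ // D ∈ (Finset.Icc 1 n).filter fun D => Squarefree D}) := by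
      rw [Nat.card_prod, Nat.card_eq_card_toFinset_aux, Nat.card_eq_fintype_card, Fintype.card_bool]
    rw [e]
    refine Nat.card_le_card_of_injective (fun d : {d : ℤ // d ≠ 0 ∧ Squarefree d ∧ (|d| : ℝ) < X} =>
      ((decide (0 < d.1), ⟨d.1.natAbs, ?_⟩) :
        Bool × {D : ℕ // D ∈ (Finset.Icc 1 n).filter fun D => Squarefree D})) ?_
    · obtain ⟨h0, hs, hl⟩ := d.2
      rw [Finset.mem_filter, Finset.mem_Icc]
      refine ⟨⟨Int.natAbs_pos.2 h0, ?_⟩, Int.squarefree_natAbs.2 hs⟩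
      have h1 : (d.1.natAbs : ℝ) < X := by
        rw [Nat.cast_natAbs]
        push_cast
        exact hl
      have h2 := Nat.lt_ceil.2 h1
      omega
    · intro d e h
      have h1 := congrArg Prod.fst h
      have h2 := congrArg Subtype.val (congrArg Prod.snd h)
      simp only [decide_eq_decide] at h1 h2
      apply Subtype.ext
      have h3 := Int.natAbs_eq_natAbs_iff.1 h2
      have hd := d.2.1
      have he := e.2.1
      omega

lemma cc_pos : 0 < cc := by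
  have hc : (0.2887 : ℝ) < cc := Pool.Agent.H757_X15.DD.t_LA1.2.2.2.1
  linarith

/-- the limit of the lower bounds -/
lemma lim {k : ℕ} (hk : 0 < k) :
    Tendsto (fun n : ℕ =>
      ((((Finset.Icc 1 (n / k)).filter fun D => Squarefree D ∧ Fm D ∧ Crit D).card : ℝ) - 1) /
        (2 * ((Finset.Icc 1 n).filter fun D => Squarefree D).card)) atTop
      (𝓝 (5 * cc / (192 * k))) := by
  set A : ℕ → ℝ := fun X => (((Finset.Icc 1 X).filter fun D => Squarefree D ∧ Fm D ∧ Crit D).card : ℝ)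
    with hA
  set B : ℕ → ℝ := fun X => (((Finset.Icc 1 X).filter fun D => Squarefree D ∧ Fm D).card : ℝ) with hB
  set Q : ℕ → ℝ := fun X => (((Finset.Icc 1 X).filter fun D => Squarefree D).card : ℝ) with hQ
  have hAB : Tendsto (fun X => A X / B X) atTop (𝓝 cc) := Pool.Agent.H757_X15.DD.t_DEN
  have hBX : Tendsto (fun X : ℕ => B X / X) atTop (𝓝 (5 / (16 * Real.pi ^ 2))) :=
    Pool.Agent.H757_X15.EE.t_CLASS
  have hQX : Tendsto (fun X : ℕ => Q X / X) atTop (𝓝 (6 / Real.pi ^ 2)) :=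
    Pool.Agent.H757_X15.EE.t_SQF
  have hkr : (0 : ℝ) < k := by exact_mod_cast hk
  have hdiv : Tendsto (fun n : ℕ => n / k) atTop atTop := Nat.tendsto_div_const_atTop hk.ne'
  have hAX : Tendsto (fun X : ℕ => A X / X) atTop (𝓝 (cc * (5 / (16 * Real.pi ^ 2)))) := by
    refine (hAB.mul hBX).congr' ?_
    filter_upwards [Filter.eventually_ge_atTop 1] with X hX
    have hB1 : B X ≠ 0 := by
      have : 0 < ((Finset.Icc 1 X).filter fun D => Squarefree D ∧ Fm D).card := by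
        rw [Finset.card_pos]
        refine ⟨1, ?_⟩
        rw [Finset.mem_filter, Finset.mem_Icc]
        exact ⟨⟨le_refl 1, hX⟩, squarefree_one, Or.inl rfl⟩
      have h2 : (0 : ℝ) < B X := by
        rw [hB]
        exact Nat.cast_pos.2 this
      exact h2.ne'
    rw [div_mul_div_comm, mul_comm (B X), mul_div_mul_right _ _ hB1]
  -- `A (n / k) / n → (cc * 5 / (16 π²)) / k`
  have hfl : Tendsto (fun n : ℕ => (((n / k : ℕ) : ℝ)) / n) atTop (𝓝 (1 / (k : ℝ))) := by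
    have h1 : Tendsto (fun n : ℕ => 1 / (k : ℝ) - 1 / (n : ℝ)) atTop (𝓝 (1 / (k : ℝ) - 0)) :=
      tendsto_const_nhds.sub tendsto_one_div_atTop_nhds_zero_nat
    rw [sub_zero] at h1
    refine tendsto_of_tendsto_of_tendsto_of_le_of_le' h1 tendsto_const_nhds ?_ ?_
    · filter_upwards [Filter.eventually_ge_atTop 1] with n hn
      have hn' : (0 : ℝ) < n := by exact_mod_cast hn
      rw [le_div_iff₀ hn', sub_mul, one_div_mul_cancel hn'.ne']
      have h2 : n < k * (n / k) + k := Nat.lt_mul_div_succ n hk |>.trans_eq (by ring)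
      have h3 : (n : ℝ) < k * ((n / k : ℕ) : ℝ) + k := by exact_mod_cast h2
      rw [sub_le_iff_le_add, one_div_mul_eq_div, div_le_iff₀ hkr]
      nlinarith
    · filter_upwards [Filter.eventually_ge_atTop 1] with n hn
      have hn' : (0 : ℝ) < n := by exact_mod_cast hn
      rw [div_le_div_iff₀ hn' hkr, one_mul]
      exact_mod_cast Nat.div_mul_le_self n k
  have hAn : Tendsto (fun n : ℕ => (A (n / k) - 1) / n) atTop
      (𝓝 (cc * (5 / (16 * Real.pi ^ 2)) * (1 / (k : ℝ)))) := by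
    have h1 := ((hAX.comp hdiv).mul hfl).sub (tendsto_one_div_atTop_nhds_zero_nat (𝕜 := ℝ))
    rw [sub_zero] at h1
    refine h1.congr' ?_
    filter_upwards [Filter.eventually_ge_atTop k] with n hn
    have h2 : 1 ≤ n / k := (Nat.one_le_div_iff hk).2 hn
    have h3 : (((n / k : ℕ) : ℝ)) ≠ 0 := by
      have : (0 : ℝ) < ((n / k : ℕ) : ℝ) := by exact_mod_cast h2
      exact this.ne'
    simp only [Function.comp_apply]
    rw [div_mul_div_comm, mul_comm (((n / k : ℕ) : ℝ)) (n : ℝ), mul_div_mul_right _ _ h3, ← sub_div]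
  have hpi : (0 : ℝ) < Real.pi ^ 2 := by positivity
  have h6 : (6 / Real.pi ^ 2 : ℝ) ≠ 0 := by positivity
  have h1 := hAn.div (hQX.const_mul 2) (mul_ne_zero two_ne_zero h6)
  have e : cc * (5 / (16 * Real.pi ^ 2)) * (1 / (k : ℝ)) / (2 * (6 / Real.pi ^ 2)) =
      5 * cc / (192 * k) := by
    field_simp
    ring
  rw [e] at h1
  refine h1.congr' ?_
  filter_upwards [Filter.eventually_ge_atTop 1] with n hn
  have hn' : (n : ℝ) ≠ 0 := by positivity
  simp only [Pi.div_apply]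
  rw [← mul_div_assoc, div_div_div_cancel_right₀ hn']

end proof

/-- **Main theorem.** For every squarefree `m ≠ 0` and the quadratic twist `E` by `m` of `X_0(15)`:
the lower limit of `N_0(E, X) / S(X)` is at least `5 c / (192 |m|)`, with
`c = ∏_{i ≥ 1} (1 - 2^{-i})` between `0.2887` and `0.2888`. -/
theorem result :
    (∀ m : ℤ, Squarefree m → ∀ δ : ℝ, δ < 5 * cc / (192 * |(m : ℝ)|) →
      ∀ᶠ X : ℝ in atTop, 0 < S X ∧
        δ ≤ (N 0 (-12987 * m ^ 2) (-263466 * m ^ 3) X : ℝ) / (S X : ℝ)) ∧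
    0.2887 < cc ∧ cc < 0.2888 := by
  refine ⟨fun m hm δ hδ => ?_, Pool.Agent.H757_X15.DD.t_LA1.2.2.2⟩
  have hk : 0 < m.natAbs := Int.natAbs_pos.2 hm.ne_zero
  have h1 := lim hk
  have hmk : ((m.natAbs : ℕ) : ℝ) = |(m : ℝ)| := by
    rw [Nat.cast_natAbs]
    push_cast
    rfl
  rw [hmk] at h1
  have hceil : Tendsto (fun X : ℝ => ⌈X⌉₊ - 1) atTop atTop :=
    (tendsto_sub_atTop_nat 1).comp tendsto_nat_ceil_atTop
  have h2 := (h1.comp hceil).eventually (lt_mem_nhds hδ)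
  filter_upwards [h2, Filter.eventually_gt_atTop (1 : ℝ)] with X h3 hX
  obtain ⟨hS, hS2⟩ := up hX
  refine ⟨hS, ?_⟩
  have hlow := low hm hX
  have hSr : (0 : ℝ) < (S X : ℝ) := by exact_mod_cast hS
  simp only [Function.comp_apply] at h3
  set a : ℝ := (((Finset.Icc 1 ((⌈X⌉₊ - 1) / m.natAbs)).filter fun D =>
    Squarefree D ∧ Pool.Agent.H757_X15.DD.Fm D ∧ Pool.Agent.H757_X15.DD.Crit D).card : ℝ) with ha
  set b : ℝ := (((Finset.Icc 1 (⌈X⌉₊ - 1)).filter fun D => Squarefree D).card : ℝ) with hb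
  have h4 : a - 1 ≤ (N 0 (-12987 * m ^ 2) (-263466 * m ^ 3) X : ℝ) := by
    have : (a : ℝ) ≤ (N 0 (-12987 * m ^ 2) (-263466 * m ^ 3) X : ℝ) + 1 := by
      rw [ha]
      exact_mod_cast hlow
    linarith
  have h5 : (S X : ℝ) ≤ 2 * b := by
    rw [hb]
    exact_mod_cast hS2
  have hN : (0 : ℝ) ≤ (N 0 (-12987 * m ^ 2) (-263466 * m ^ 3) X : ℝ) := Nat.cast_nonneg _
  rcases le_or_gt 0 (a - 1) with h6 | h6
  · calc δ ≤ (a - 1) / (2 * b) := h3.le
      _ ≤ (a - 1) / (S X : ℝ) := div_le_div_of_nonneg_left h6 hSr h5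
      _ ≤ _ := div_le_div_of_nonneg_right h4 hSr.le
  · have h7 : (a - 1) / (2 * b) ≤ 0 := div_nonpos_of_nonpos_of_nonneg h6.le (by linarith)
    have h8 : (0 : ℝ) ≤ (N 0 (-12987 * m ^ 2) (-263466 * m ^ 3) X : ℝ) / (S X : ℝ) :=
      div_nonneg hN hSr.le
    linarith

end Pool.Agent.Results.MP_03e5d0_nt.RankZeroTwistsX15
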